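import Mathlib
import Pool.Agent.KS6_57.RT.Cube

/-!
# MP_e7950b_an: the Ritt property in every dimension, of every order, and in Banach algebras

Q1 asks whether every symmetric probability measure on `ℤ` which is non-increasing on `ℕ` is Ritt.
Such a measure is a mixture of the uniform measures on the intervals `{-r, …, r}`.  Here the same is
proved, with explicit constants and for all orders, for the mixtures of uniform measures on the
boxes of `ℤ^d`, and for the corresponding mixtures of averages of any bounded representation of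
`ℤ^d` in a Banach algebra (for example by commuting invertible operators on a Banach space).
-/

set_option autoImplicit false

namespace Pool.Agent.Results.MP_e7950b_an.EveryDimension

open Pool.Agent.KS6_57.RT

/-- The average of the representation `π` of `ℤ^d` over the box `{k : |k a| ≤ r a for all a}`. -/
noncomputable def boxAverage {d : ℕ} {𝔸 : Type*} [NormedRing 𝔸] [NormedAlgebra ℝ 𝔸]
    (π : Multiplicative (Fin d → ℤ) →* 𝔸) (r : Fin d → ℕ) : 𝔸 :=
  (∏ a, (2 * (r a : ℝ) + 1))⁻¹ •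
    ∑ k ∈ Fintype.piFinset (fun a => Finset.Icc (-(r a : ℤ)) (r a)), π (Multiplicative.ofAdd k)

end Pool.Agent.Results.MP_e7950b_an.EveryDimension

open Pool.Agent.Results.MP_e7950b_an.EveryDimension Pool.Agent.KS6_57.RT in
/-- **MP_e7950b_an, Q1 (yes) in every dimension and of every order.**

(1) Let `𝔸` be a Banach algebra, `π` a representation of `ℤ^d`, `d ≥ 1`, in `𝔸` with `‖π k‖ ≤ K` for
all `k`, and let `P = ∑ c i • (average of π over the box with the half side lengths r i)` be a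
mixture (`c i ≥ 0`, `∑ c i = 1`).  Then `n ^ j * ‖(1 - P) ^ j * P ^ n‖ ≤ K (34 d j) ^ j` for all `n`
and `j ≥ 1`; in particular `n ‖P ^ n - P ^ (n + 1)‖ ≤ 34 d K`.

(2) For every mixture `μ` of uniform probability measures on boxes of `ℤ^d`,
`n ^ j * ‖(δ - μ)^{*j} * μ^{*n}‖₁ ≤ (34 d j) ^ j`.

(3) This holds for every probability measure on `ℤ^d` of the form `μ x = f (max |x a|)` with `f`
non-increasing.

(4) It holds for every symmetric probability measure on `ℤ` which is non-increasing on `ℕ`, with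
`d = 1`. -/
theorem Pool.Agent.Results.MP_e7950b_an.EveryDimension.result.{u, v} :
    (∀ (d : ℕ), 1 ≤ d → ∀ (𝔸 : Type u) [NormedRing 𝔸] [NormedAlgebra ℝ 𝔸] [CompleteSpace 𝔸]
      (π : Multiplicative (Fin d → ℤ) →* 𝔸) (K : ℝ), (∀ k, ‖π k‖ ≤ K) →
      ∀ (ι : Type v) (r : ι → Fin d → ℕ) (c : ι → ℝ), (∀ i, 0 ≤ c i) → HasSum c 1 →
        Summable (fun i => c i • boxAverage π (r i)) ∧
        ∀ n j : ℕ, 1 ≤ j →
          (n : ℝ) ^ j * ‖(1 - ∑' i, c i • boxAverage π (r i)) ^ j *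
            (∑' i, c i • boxAverage π (r i)) ^ n‖ ≤ K * (34 * d * j) ^ j) ∧
    (∀ (d : ℕ), 1 ≤ d → ∀ (ι : Type v) (r : ι → Fin d → ℕ) (c : ι → ℝ), (∀ i, 0 ≤ c i) →
      HasSum c 1 → ∀ n j : ℕ, 1 ≤ j →
        Summable (fun x => |diffPow (mix r c) j (convPow (mix r c) n) x|) ∧
        (n : ℝ) ^ j * ∑' x, |diffPow (mix r c) j (convPow (mix r c) n) x| ≤ (34 * d * j) ^ j) ∧
    (∀ (d : ℕ), 1 ≤ d → ∀ f : ℕ → ℝ, (∀ n, f (n + 1) ≤ f n) →
      HasSum (fun x : Fin d → ℤ => f (nrm x)) 1 → ∀ n j : ℕ, 1 ≤ j →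
        Summable (fun x => |diffPow (fun x : Fin d → ℤ => f (nrm x)) j
          (convPow (fun x : Fin d → ℤ => f (nrm x)) n) x|) ∧
        (n : ℝ) ^ j * ∑' x, |diffPow (fun x : Fin d → ℤ => f (nrm x)) j
          (convPow (fun x : Fin d → ℤ => f (nrm x)) n) x| ≤ (34 * d * j) ^ j) ∧
    (∀ μ : ℤ → ℝ, HasSum μ 1 → (∀ k, μ (-k) = μ k) → (∀ n : ℕ, μ ((n : ℤ) + 1) ≤ μ (n : ℤ)) →
      ∀ n j : ℕ, 1 ≤ j →
        Summable (fun x => |diffPow μ j (convPow μ n) x|) ∧
        (n : ℝ) ^ j * ∑' x, |diffPow μ j (convPow μ n) x| ≤ (34 * j) ^ j) :=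
  ⟨fun _ hd _ _ _ _ π K hπ _ r c hc hs => banach π K hπ r c hc hs hd,
    fun _ hd _ _ _ hc hs n j hj => ritt_boxes hd hc hs n j hj,
    fun _ hd _ hf hs n j hj => ritt_cubes hd hf hs n j hj,
    fun μ hs h1 h2 n j hj => ritt_line μ hs h1 h2 n j hj⟩
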